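import Pool.Agent.R531.Pooling.Final

/-!
# One quality and in-degrees at most two: the pooling problem is strongly NP-hard

Reduction from the independent set problem in cubic graphs. Two inputs, of quality `0` and `2`, feed
one pool for every vertex; the in-degree of every pool is two. For every vertex there is an output
fed only by its pool, and for every pair of vertices there is an output fed by the two pools only.
-/

set_option autoImplicit false

namespace Pool.Agent.Results.MP_975cd4_lc.OneQualityInDegreeTwo

open Pool.Agent.NPC Pool.Agent.R531.Pooling

/-- **The pooling problem with one quality in which every pool and every output has in-degree at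
most two is strongly NP-hard**, even with two inputs. First part: many-one reductions from all
languages in NP to the decision version, with integer data bounded by eight times the number of
vertices. Second part: a polynomial-time algorithm for the optimum value puts NP into P. -/
theorem result :
    (∀ L : Set (List Bool), InNP L → ∃ f : List Bool → Instance × ℚ,
      PolyTime (fun w => bits (f w)) ∧ ∀ w,
        (InDegreeTwo (f w).1 ∧ (f w).1.nI = 2 ∧
          SmallNumbers (f w).1 (8 * ((f w).1.nI + (f w).1.nL + (f w).1.nJ))) ∧
        IsSmall (8 * ((f w).1.nI + (f w).1.nL + (f w).1.nJ)) (f w).2 ∧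
        (w ∈ L ↔ ∃ F, Feasible (f w).1.data F ∧ cost (f w).1.data F ≤ ((f w).2 : ℝ))) ∧
    ∀ A : List Bool → List Bool, PolyTime A →
      (∀ P : Instance, (InDegreeTwo P ∧ P.nI = 2 ∧ SmallNumbers P (8 * (P.nI + P.nL + P.nJ))) →
        ∀ v : ℚ, IsOptimum P v → A (bits P) = bits v) →
      ∀ L : Set (List Bool), InNP L → InP L :=
  inWorks.hard poly_inBase
    (C := fun P => InDegreeTwo P ∧ P.nI = 2 ∧ SmallNumbers P (8 * (P.nI + P.nL + P.nJ)))
    (fun G => ⟨inInst_inDegree G, rfl, inInst_small G⟩)
    (D := fun P q => IsSmall (8 * (P.nI + P.nL + P.nJ)) q)
    inInst_threshold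

end Pool.Agent.Results.MP_975cd4_lc.OneQualityInDegreeTwo
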